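import Pool.Agent.H.MP_7eb7a8_an.Defs

open Set Topology Filter

namespace Pool.Agent.H.MP_7eb7a8_an

variable {X V : Type} [TopologicalSpace X] [AddCommGroup V] [Module ℝ V] [TopologicalSpace V]
  {δ : X → V}

lemma IsFreeLCS.span (h : IsFreeLCS δ) (x : V) : x ∈ Submodule.span ℝ (range δ) := by
  obtain ⟨_, _, _, _, h1, h2⟩ := h
  have h3 (x) : δ x ∈ Submodule.span ℝ (range δ) := Submodule.subset_span ⟨x, rfl⟩
  obtain ⟨T, hT, -⟩ := h2 _ _ (h1.subtype_mk h3)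
  have := (h2 V δ h1).unique (y₁ := (Submodule.subtypeL _).comp T) (y₂ := .id ℝ V)
    (fun x => by simp [hT]) fun _ => rfl
  exact (show (T x).1 = x from DFunLike.congr_fun this x) ▸ (T x).2

lemma IsFreeLCS.lift (h : IsFreeLCS δ) {Γ : Type} (g : Γ → X → ℝ)
    (hb : ∀ t, ∃ C, ∀ γ, |g γ t| ≤ C)
    (he : ∀ t, ∀ ε > 0, ∀ᶠ t' in 𝓝 t, ∀ γ, |g γ t' - g γ t| ≤ ε) :
    ∃ (s : Seminorm ℝ V) (φ : Γ → V →ₗ[ℝ] ℝ), Continuous s ∧ (∀ γ x, |φ γ x| ≤ s x) ∧
      ∀ γ t, φ γ (δ t) = g γ t := by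
  let G : X → lp (fun _ : Γ => ℝ) ⊤ := fun t => ⟨fun γ => g γ t, memℓp_infty
    ((hb t).imp fun C hC => by rintro _ ⟨γ, rfl⟩; exact hC γ)⟩
  obtain ⟨T, hT, -⟩ := h.2.2.2.2.2 _ G (continuous_iff_continuousAt.2 fun t =>
    Metric.tendsto_nhds.2 fun ε hε => (he t (ε / 2) (half_pos hε)).mono fun t' ht' => by
      rw [dist_eq_norm]
      exact (lp.norm_le_of_forall_le (half_pos hε).le ht').trans_lt (half_lt_self hε))
  exact ⟨(normSeminorm ℝ _).comp T.toLinearMap,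
    fun γ => ((lp.evalCLM ℝ (fun _ : Γ => ℝ) ⊤ γ).comp T).toLinearMap, T.continuous.norm,
    fun γ x => lp.norm_apply_le_norm (by simp) (T x) γ, fun γ t => by
      show T (δ t) γ = _
      rw [hT]⟩

omit [TopologicalSpace X] [TopologicalSpace V] in
lemma bump (p : Seminorm ℝ V) (K : ℝ) (hK : 0 ≤ K) (F : Finset X) : ∃ A : X → ℝ,
    (∀ t, 0 ≤ A t ∧ A t ≤ 1) ∧ (∀ t t', A t - A t' ≤ K * p (δ t - δ t')) ∧ (∀ t ∈ F, A t = 0) ∧
      ∀ t, (∀ a ∈ F, 1 ≤ K * p (δ t - δ a)) → A t = 1 := by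
  classical
  induction F using Finset.induction_on with
  | empty => exact ⟨fun _ => 1, by simp, fun t t' => by simp; positivity, by simp, by simp⟩
  | insert a F _ ih =>
    obtain ⟨A, a1, a2, a3, a4⟩ := ih
    refine ⟨fun t => min (K * p (δ t - δ a)) (A t), fun t => ⟨le_min (by positivity) (a1 t).1,
      min_le_of_right_le (a1 t).2⟩, fun t t' => ?_, fun t ht => ?_, fun t ht => ?_⟩ <;> beta_reduce
    · have := mul_le_mul_of_nonneg_left (map_add_le_add p (δ t - δ t') (δ t' - δ a)) hK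
      rw [sub_add_sub_cancel, mul_add] at this
      have := a2 t t'
      rcases le_total (K * p (δ t' - δ a)) (A t') with h | h
      · rw [min_eq_left h]; linarith [min_le_left (K * p (δ t - δ a)) (A t)]
      · rw [min_eq_right h]; linarith [min_le_right (K * p (δ t - δ a)) (A t)]
    · rcases Finset.mem_insert.1 ht with rfl | ht
      · simp [(a1 t).1]
      · rw [a3 t ht]; exact min_eq_right (by positivity)
    · rw [a4 t fun b hb => ht b (Finset.mem_insert_of_mem hb)]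
      exact min_eq_right (ht a (Finset.mem_insert_self _ _))

lemma IsFreeLCS.cont (h : IsFreeLCS δ) {p : Seminorm ℝ V} (hp : Continuous p) (c : V) :
    Continuous fun t => p (δ t - c) := by
  have := h.1
  exact hp.comp (h.2.2.2.2.1.sub continuous_const)

lemma IsFreeLCS.sep (h : IsFreeLCS δ) {p : Seminorm ℝ V} (hp : Continuous p) :
    ∃ s : Seminorm ℝ V, Continuous s ∧ ∀ (n : ℕ) (F : Finset X), ∃ φ : V →ₗ[ℝ] ℝ,
      (∀ x, |φ x| ≤ (n + 1) * s x) ∧ (∀ t ∈ F, φ (δ t) = 0) ∧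
        ∀ t, (∀ a ∈ F, 1 ≤ 2 ^ n * p (δ t - δ a)) → φ (δ t) = 1 := by
  choose A a1 a2 a3 a4 using fun γ : ℕ × Finset X => bump (δ := δ) p (2 ^ γ.1) (by positivity) γ.2
  have hb : ∀ γ t t', |A γ t' - A γ t| ≤ 1 := fun γ t t' =>
    abs_le.2 ⟨by linarith [a1 γ t, a1 γ t'], by linarith [a1 γ t, a1 γ t']⟩
  obtain ⟨s, φ, h1, h2, h3⟩ := h.lift (fun γ t => A γ t / (γ.1 + 1)) (fun t => ⟨1, fun γ => by
    rw [abs_of_nonneg (div_nonneg (a1 γ t).1 (by positivity))]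
    exact div_le_one_of_le₀ (by linarith [a1 γ t, γ.1.cast_nonneg (α := ℝ)]) (by positivity)⟩)
    fun t ε hε => by
      obtain ⟨N, hN⟩ := exists_nat_one_div_lt hε
      have := (((h.cont hp (δ t)).const_mul (2 ^ N)).tendsto t).eventually_lt_const (u := ε)
        (by simpa using hε)
      refine this.mono fun t' ht' γ => ?_
      rw [← sub_div, abs_div, abs_of_pos (by positivity : (0 : ℝ) < γ.1 + 1)]
      rcases le_total N γ.1 with e | e
      · exact (div_le_div₀ zero_le_one (hb _ _ _) (by positivity) (by gcongr)).trans hN.le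
      · refine (div_le_self (abs_nonneg _) (by simp)).trans (le_trans ?_ ht'.le)
        have e' : 2 ^ γ.1 * p (δ t' - δ t) ≤ 2 ^ N * p (δ t' - δ t) := by gcongr; norm_num
        refine abs_le.2 ⟨?_, (a2 γ t' t).trans e'⟩
        have := a2 γ t t'
        rw [map_sub_rev] at this
        linarith
  refine ⟨s, h1, fun n F => ⟨(n + 1 : ℝ) • φ (n, F), fun x => ?_, fun t ht => ?_, fun t ht => ?_⟩⟩
  · rw [LinearMap.smul_apply, smul_eq_mul, abs_mul, abs_of_pos (by positivity)]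
    exact mul_le_mul_of_nonneg_left (h2 _ _) (by positivity)
  · simp [h3, a3 (n, F) t ht]
  · rw [LinearMap.smul_apply, h3, a4 (n, F) t ht, smul_eq_mul, mul_one_div_cancel (by positivity)]

omit [TopologicalSpace X] [TopologicalSpace V] in
lemma enum (p : Seminorm ℝ V) (R : X → ℝ) (K : ℕ → ℕ → ℕ)
    (h : ∀ n r : ℕ, ∃ F : Finset X, F.card ≤ K n r ∧
      ∀ t, R t ≤ r → ∃ a ∈ F, 2 ^ n * p (δ t - δ a) < 1) :
    ∃ c : ℕ → ℕ → V, ∀ (n r : ℕ) t, R t ≤ r →
      ∃ k < (max r (K n r) + 1) ^ 2, 2 ^ n * p (δ t - c n k) < 1 := by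
  choose F hF hF' using h
  refine ⟨fun n k => ((F n k.unpair.1).toList.map δ).getD k.unpair.2 0, fun n r t ht => ?_⟩
  obtain ⟨a, ha, ha'⟩ := hF' n r t ht
  obtain ⟨j, hj, rfl⟩ := List.getElem_of_mem (Finset.mem_toList.2 ha)
  refine ⟨r.pair j, (Nat.pair_lt_max_add_one_sq _ _).trans_le ?_, ?_⟩
  · have : j ≤ K n r := (hj.trans_eq (Finset.length_toList _)).le.trans (hF n r)
    gcongr
  · simpa [List.getD, List.getElem?_eq_getElem hj] using ha'

lemma IsFreeLCS.pou (h : IsFreeLCS δ) {p : Seminorm ℝ V} (hp : Continuous p) (K : ℝ) (c : ℕ → V) :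
    ∃ ψ : ℕ → X → ℝ, (∀ k, Continuous (ψ k)) ∧ (∀ k t, 0 ≤ ψ k t) ∧
      (∀ k t, ψ k t ≠ 0 → K * p (δ t - c k) < 2) ∧ (∀ L t, ∑ k ∈ Finset.range L, ψ k t ≤ 1) ∧
      ∀ j t, K * p (δ t - c j) < 1 → (∀ k, ψ k t ≠ 0 → k ≤ j) ∧
        ∀ L, j < L → ∑ k ∈ Finset.range L, ψ k t = 1 := by
  let b : ℕ → X → ℝ := fun k t => max 0 (min 1 (2 - K * p (δ t - c k)))
  have b1 : ∀ k t, 0 ≤ 1 - b k t := fun k t => sub_nonneg.2 (max_le zero_le_one (min_le_left _ _))
  have b2 : ∀ j t, K * p (δ t - c j) < 1 → 1 - b j t = 0 := fun j t h => by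
    simp only [b]
    rw [min_eq_left (by linarith), max_eq_right zero_le_one, sub_self]
  have b3 : ∀ L t, ∑ k ∈ Finset.range L, b k t * ∏ j ∈ Finset.range k, (1 - b j t) =
      1 - ∏ j ∈ Finset.range L, (1 - b j t) := by
    intro L t
    induction L with
    | zero => simp
    | succ L ih => rw [Finset.sum_range_succ, ih, Finset.prod_range_succ]; ring
  refine ⟨fun k t => b k t * ∏ j ∈ Finset.range k, (1 - b j t), fun k => ?_,
    fun k t => mul_nonneg (le_max_left _ _) (Finset.prod_nonneg fun j _ => b1 j t),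
    fun k t hk => ?_, fun L t => ?_, fun j t hj => ⟨fun k hk => ?_, fun L hL => ?_⟩⟩
  · have : ∀ k, Continuous (b k) := fun k => by
      exact continuous_const.max (continuous_const.min (continuous_const.sub
        ((h.cont hp (c k)).const_mul K)))
    fun_prop
  · by_contra hn
    exact hk (mul_eq_zero_of_left (max_eq_left (min_le_of_right_le (by linarith))) _)
  · rw [b3]; exact sub_le_self _ (Finset.prod_nonneg fun j _ => b1 j t)
  · by_contra hn
    exact hk (mul_eq_zero_of_right _ (Finset.prod_eq_zero (Finset.mem_range.2 (not_le.1 hn))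
      (b2 j t hj)))
  · rw [b3, Finset.prod_eq_zero (Finset.mem_range.2 hL) (b2 j t hj), sub_zero]

/-- The decomposition data. -/
structure Dec (δ : X → V) (p : Seminorm ℝ V) (R : X → ℝ) (M : ℕ → ℕ → ℕ)
    (f : ℕ × ℕ × ℕ → X → ℝ) (y : ℕ × ℕ × ℕ → V) : Prop where
  cont : ∀ γ, Continuous (f γ)
  nonneg : ∀ γ t, 0 ≤ f γ t
  supp : ∀ γ t (r : ℕ), f γ t ≠ 0 → R t ≤ r → γ.2.1 < M γ.1 r ∧ γ.2.2 < M γ.1 r
  small : ∀ γ t, f γ t ≠ 0 → γ.1 ≠ 0 → p (y γ) ≤ 6 / 2 ^ γ.1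
  le_one : ∀ n t (G : Finset (ℕ × ℕ)), ∑ i ∈ G, f (n, i) t ≤ 1
  approx : ∀ N t (r L : ℕ), R t ≤ r → (∀ n ≤ N, M n r ≤ L) →
    p (δ t - ∑ γ ∈ Finset.range (N + 1) ×ˢ Finset.range L ×ˢ Finset.range L, f γ t • y γ) ≤
      2 / 2 ^ N

lemma IsFreeLCS.dec (h : IsFreeLCS δ) {p : Seminorm ℝ V} (hp : Continuous p) (R : X → ℝ)
    (M : ℕ → ℕ → ℕ) (hM : ∀ n r, M n r ≤ M (n + 1) r) (c : ℕ → ℕ → V)
    (hc : ∀ (n r : ℕ) t, R t ≤ r → ∃ k < M n r, 2 ^ n * p (δ t - c n k) < 1) :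
    ∃ f y, Dec δ p R M f y := by
  choose ψ p1 p2 p3 p4 p5 using fun n => h.pou hp (2 ^ n) (c n)
  let Ψ : ℕ → ℕ → X → ℝ := fun n => n.casesOn (fun k _ => if k = 0 then 1 else 0) ψ
  let z : ℕ → ℕ → V := fun n => n.casesOn (fun _ => 0) c
  have q2 : ∀ n k t, 0 ≤ Ψ n k t := fun n k t => by
    cases n; exacts [ite_nonneg zero_le_one le_rfl, p2 _ _ _]
  have q4 : ∀ n L t, ∑ k ∈ Finset.range L, Ψ n k t ≤ 1 := fun n L t => by
    cases n; exacts [by simp [Ψ]; split_ifs <;> norm_num, p4 _ _ _]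
  have q5 : ∀ n (r : ℕ) t, R t ≤ r → (∀ k, ψ n k t ≠ 0 → k < M n r) ∧
      ∀ L, M n r ≤ L → ∑ k ∈ Finset.range L, ψ n k t = 1 := fun n r t ht => by
    obtain ⟨j, hj, hj'⟩ := hc n r t ht
    exact ⟨fun k hk => ((p5 n j t hj').1 k hk).trans_lt hj, fun L hL => (p5 n j t hj').2 L (hj.trans_le hL)⟩
  have q6 : ∀ n (r : ℕ) t, R t ≤ r → (∀ k, Ψ n k t ≠ 0 → k < M n r) ∧
      ∀ L, M n r ≤ L → ∑ k ∈ Finset.range L, Ψ n k t = 1 := fun n r t ht => by
    rcases n with _ | n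
    · obtain ⟨j, hj, -⟩ := hc 0 r t ht
      exact ⟨fun k hk => by simp [Ψ] at hk; omega, fun L hL => by simp [Ψ]; omega⟩
    · exact ⟨fun k hk => ((q5 n r t ht).1 k hk).trans_le (hM _ _),
        fun L hL => (q5 n r t ht).2 L ((hM _ _).trans hL)⟩
  have q7 : ∀ n k t, ψ n k t ≠ 0 → p (δ t - c n k) ≤ 2 / 2 ^ n := fun n k t hk =>
    (le_div_iff₀' (by positivity)).2 (p3 n k t hk).le
  refine ⟨fun γ t => ψ γ.1 γ.2.1 t * Ψ γ.1 γ.2.2 t, fun γ => c γ.1 γ.2.1 - z γ.1 γ.2.2,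
    fun ⟨n, k, j⟩ => (p1 _ _).mul ?_, fun γ t => mul_nonneg (p2 _ _ _) (q2 _ _ _),
    fun γ t r h ht => ⟨(q5 _ r t ht).1 _ (left_ne_zero_of_mul h),
      (q6 _ r t ht).1 _ (right_ne_zero_of_mul h)⟩, fun ⟨n, k, j⟩ t h hn => ?_, fun n t G => ?_,
    fun N t r L ht hL => ?_⟩
  · cases n; exacts [continuous_const, p1 _ _]
  · obtain ⟨n, rfl⟩ := Nat.exists_eq_succ_of_ne_zero hn
    have a1 := q7 _ _ _ (left_ne_zero_of_mul h)
    have a2 := q7 n j t (right_ne_zero_of_mul h)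
    have := map_add_le_add p (c (n + 1) k - δ t) (δ t - c n j)
    rw [sub_add_sub_cancel, map_sub_rev p _ (δ t)] at this
    refine this.trans ((add_le_add a1 a2).trans_eq ?_)
    simp only [Nat.succ_eq_add_one, pow_succ]
    field_simp
    norm_num
  · obtain ⟨L, hL⟩ := ((G.image Prod.fst) ∪ (G.image Prod.snd)).exists_nat_subset_range
    refine (Finset.sum_le_sum_of_subset_of_nonneg (t := Finset.range L ×ˢ Finset.range L)
      (fun i hi => Finset.mem_product.2 ⟨hL (by simp only [Finset.mem_union, Finset.mem_image]; exact .inl ⟨i, hi, rfl⟩),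
        hL (by simp only [Finset.mem_union, Finset.mem_image]; exact .inr ⟨i, hi, rfl⟩)⟩)
      fun i _ _ => mul_nonneg (p2 _ _ _) (q2 _ _ _)).trans ?_
    rw [Finset.sum_product' (f := fun k j => ψ n k t * Ψ n j t), ← Finset.sum_mul_sum]
    exact mul_le_one₀ (p4 _ _ _) (Finset.sum_nonneg fun _ _ => q2 _ _ _) (q4 _ _ _)
  · let T : ℕ → V := fun n => ∑ k ∈ Finset.range L, Ψ n k t • z n k
    have : ∑ γ ∈ Finset.range (N + 1) ×ˢ Finset.range L ×ˢ Finset.range L,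
        (ψ γ.1 γ.2.1 t * Ψ γ.1 γ.2.2 t) • (c γ.1 γ.2.1 - z γ.1 γ.2.2) = T (N + 1) - T 0 := by
      rw [← Finset.sum_range_sub, Finset.sum_product]
      refine Finset.sum_congr rfl fun n hn => ?_
      have hn := hL n (Nat.lt_succ_iff.1 (Finset.mem_range.1 hn))
      simp only [smul_sub, Finset.sum_sub_distrib, Finset.sum_product]
      congr 1
      · refine Finset.sum_congr rfl fun k _ => ?_
        rw [← Finset.sum_smul, ← Finset.mul_sum, (q6 n r t ht).2 L hn, mul_one]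
      · rw [Finset.sum_comm]
        refine Finset.sum_congr rfl fun k _ => ?_
        rw [← Finset.sum_smul, ← Finset.sum_mul, (q5 n r t ht).2 L hn, one_mul]
    rw [this, show T 0 = 0 by simp [T, z], sub_zero]
    have e := (q5 N r t ht).2 L (hL N le_rfl)
    have : δ t - T (N + 1) = ∑ k ∈ Finset.range L, ψ N k t • (δ t - c N k) := by
      simp only [smul_sub, Finset.sum_sub_distrib]
      rw [← Finset.sum_smul, e, one_smul]
    rw [this]
    refine (Finset.le_sum_of_subadditive p (map_zero p).le (map_add_le_add p) _ _).trans ?_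
    refine (Finset.sum_le_sum (g := fun k => ψ N k t * (2 / 2 ^ N)) fun k _ => ?_).trans_eq ?_
    · rw [map_smul_eq_mul, Real.norm_of_nonneg (p2 _ _ _)]
      by_cases hk : ψ N k t = 0
      · simp [hk]
      · exact mul_le_mul_of_nonneg_left (q7 _ _ _ hk) (p2 _ _ _)
    · rw [← Finset.sum_mul, e, one_mul]

end Pool.Agent.H.MP_7eb7a8_an
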