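import Pool.Agent.H.MP_7eb7a8_an.A

open Set Topology Filter

namespace Pool.Agent.H.MP_7eb7a8_an

variable {X V : Type} [TopologicalSpace X] [AddCommGroup V] [Module ℝ V] [TopologicalSpace V]
  {δ : X → V} {p : Seminorm ℝ V} {R : X → ℝ} {M : ℕ → ℕ → ℕ} {f : ℕ × ℕ × ℕ → X → ℝ}
  {y : ℕ × ℕ × ℕ → V}

omit [TopologicalSpace V] in
lemma Dec.tail (d : Dec δ p R M f y) (t : X) (W : ℕ × ℕ × ℕ → ℝ) (ω : ℕ → ℝ) (hω : ∀ n, 0 ≤ ω n)
    (G : Finset (ℕ × ℕ × ℕ)) (S : Finset ℕ) (hG : ∀ γ ∈ G, f γ t ≠ 0 → γ.1 ∈ S ∧ W γ ≤ ω γ.1) :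
    ∑ γ ∈ G, W γ * f γ t ≤ ∑ n ∈ S, ω n := by
  classical
  rw [← Finset.sum_filter_of_ne (p := fun γ => f γ t ≠ 0) fun γ _ h => right_ne_zero_of_mul h]
  refine (Finset.sum_le_sum (g := fun γ => ω γ.1 * f γ t) fun γ hγ => mul_le_mul_of_nonneg_right
    (hG γ (Finset.mem_filter.1 hγ).1 (Finset.mem_filter.1 hγ).2).2 (d.nonneg _ _)).trans ?_
  refine (Finset.sum_le_sum_of_subset_of_nonneg (t := S ×ˢ G.image Prod.snd) (fun γ hγ =>
    Finset.mem_product.2 ⟨(hG γ (Finset.mem_filter.1 hγ).1 (Finset.mem_filter.1 hγ).2).1,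
      Finset.mem_image_of_mem _ (Finset.mem_filter.1 hγ).1⟩)
    fun γ _ _ => mul_nonneg (hω _) (d.nonneg _ _)).trans ?_
  rw [Finset.sum_product]
  refine Finset.sum_le_sum fun n _ => ?_
  rw [← Finset.mul_sum (a := ω n) (f := fun i => f (n, i) t)]
  exact mul_le_of_le_one_right (hω n) (d.le_one n t _)

omit [TopologicalSpace V] in
lemma Dec.box (d : Dec δ p R M f y) (N r : ℕ) : ∃ L, (∀ n ≤ N, M n r ≤ L) ∧ ∀ t γ, R t ≤ r →
    γ ∉ Finset.range (N + 1) ×ˢ Finset.range L ×ˢ Finset.range L → f γ t ≠ 0 → N < γ.1 := by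
  have h : ∀ n ≤ N, M n r ≤ (Finset.range (N + 1)).sup (M · r) := fun n hn =>
    Finset.le_sup (f := (M · r)) (Finset.mem_range.2 (Nat.lt_succ_of_le hn))
  refine ⟨_, h, fun t γ ht hγ hf => not_le.1 fun e => hγ ?_⟩
  simp only [Finset.mem_product, Finset.mem_range]
  exact ⟨Nat.lt_succ_of_le e, (d.supp γ t r hf ht).1.trans_le (h _ e),
    (d.supp γ t r hf ht).2.trans_le (h _ e)⟩

lemma vanish {ω : ℕ → ℝ} (h : Summable ω) {ε : ℝ} (hε : 0 < ε) :
    ∃ N, ∀ S : Finset ℕ, ∑ n ∈ S.filter (N < ·), ω n < ε := by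
  obtain ⟨s, hs⟩ := summable_iff_vanishing_norm.1 h ε hε
  obtain ⟨N, hN⟩ := s.bddAbove
  exact ⟨N, fun S => (le_abs_self _).trans_lt (hs _ (Finset.disjoint_left.2 fun n hn hn' =>
    (Finset.mem_filter.1 hn).2.not_ge (hN hn')))⟩

omit [TopologicalSpace V] in
lemma Dec.hasSum (d : Dec δ p R M f y) (t : X) :
    HasSum (β := ℕ × ℕ × ℕ) (α := Aux p) (fun γ => f γ t • y γ) (δ t) := by
  classical
  show Tendsto _ atTop _
  refine Metric.tendsto_atTop.2 fun ε hε => ?_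
  obtain ⟨N₀, hN⟩ := vanish (ω := fun n => 6 / 2 ^ n) (by
    simpa [div_eq_mul_inv] using summable_geometric_two.mul_left 6) (half_pos hε)
  obtain ⟨N₁, hN₁⟩ := exists_pow_lt_of_lt_one (show 0 < ε / 4 by positivity) one_half_lt_one
  obtain ⟨L, hL, hL'⟩ := d.box (N₀ + N₁) ⌈R t⌉₊
  refine ⟨Finset.range (N₀ + N₁ + 1) ×ˢ Finset.range L ×ˢ Finset.range L, fun F hF => ?_⟩
  have h1 := d.approx (N₀ + N₁) t _ L (Nat.le_ceil _) hL
  have h2 := d.tail t (fun γ => p (y γ)) (fun n => 6 / 2 ^ n) (fun _ => by positivity)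
    (F \ Finset.range (N₀ + N₁ + 1) ×ˢ Finset.range L ×ˢ Finset.range L)
    ((F.image Prod.fst).filter (N₀ < ·)) fun γ hγ hf => by
      have := hL' t γ (Nat.le_ceil _) (Finset.mem_sdiff.1 hγ).2 hf
      exact ⟨Finset.mem_filter.2 ⟨Finset.mem_image_of_mem _ (Finset.mem_sdiff.1 hγ).1, by omega⟩,
        d.small γ t hf (by omega)⟩
  have h3 : (2 : ℝ) / 2 ^ (N₀ + N₁) < ε / 2 := by
    have : (1 / 2 : ℝ) ^ (N₀ + N₁) ≤ (1 / 2) ^ N₁ :=
      pow_le_pow_of_le_one (by norm_num) (by norm_num) (by omega)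
    rw [div_eq_mul_one_div, ← one_div_pow]
    linarith
  rw [dist_comm, dist_eq_norm, ← Finset.sum_sdiff hF]
  show p (δ t - (_ + _)) < ε
  rw [add_comm, ← sub_sub]
  refine (map_sub_le_add p _ _).trans_lt ?_
  have h4 := Finset.le_sum_of_subadditive p (map_zero p).le (map_add_le_add p)
    (F \ Finset.range (N₀ + N₁ + 1) ×ˢ Finset.range L ×ˢ Finset.range L) fun γ => f γ t • y γ
  simp only [map_smul_eq_mul, Real.norm_of_nonneg (d.nonneg _ _), mul_comm (f _ t)] at h4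
  exact lt_of_le_of_lt (add_le_add h1 (h4.trans h2)) (by linarith [hN (F.image Prod.fst)])

lemma Dec.hasSum' (d : Dec δ p R M f y) (h : IsFreeLCS δ) (φ : ℕ × ℕ × ℕ → V →ₗ[ℝ] ℝ)
    (hφ : ∀ γ t, φ γ (δ t) = f γ t) (x : V) :
    HasSum (β := ℕ × ℕ × ℕ) (α := Aux p) (fun γ => φ γ x • y γ) x := by
  induction h.span x using Submodule.span_induction with
  | mem x hx => obtain ⟨t, rfl⟩ := hx; simpa only [hφ] using d.hasSum t
  | zero => simp only [map_zero, zero_smul]; exact hasSum_zero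
  | add a b _ _ h1 h2 => simp only [map_add, add_smul]; exact h1.add h2
  | smul c a _ h1 => simp only [map_smul, smul_eq_mul, mul_smul]; exact h1.const_smul c

lemma IsFreeLCS.lift' (h : IsFreeLCS δ) {Γ : Type} (g : Γ → X → ℝ) (hc : ∀ γ, Continuous (g γ))
    (he : ∀ t, ∀ ε > 0, ∃ H : Finset Γ, ∀ᶠ t' in 𝓝 t, ∀ γ ∉ H, |g γ t'| ≤ ε) :
    ∃ (s : Seminorm ℝ V) (φ : Γ → V →ₗ[ℝ] ℝ), Continuous s ∧ (∀ γ x, |φ γ x| ≤ s x) ∧
      ∀ γ t, φ γ (δ t) = g γ t := by
  refine h.lift g (fun t => ?_) fun t ε hε => ?_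
  · obtain ⟨H, hH⟩ := he t 1 one_pos
    refine ⟨1 + ∑ γ ∈ H, |g γ t|, fun γ => ?_⟩
    have := Finset.sum_nonneg fun γ (_ : γ ∈ H) => abs_nonneg (g γ t)
    by_cases e : γ ∈ H
    · linarith [Finset.single_le_sum (f := fun γ => |g γ t|) (fun _ _ => abs_nonneg _) e]
    · linarith [hH.self_of_nhds γ e]
  · obtain ⟨H, hH⟩ := he t (ε / 2) (half_pos hε)
    filter_upwards [hH, (eventually_all_finset H).2 fun γ _ =>
      Metric.tendsto_nhds.1 ((hc γ).tendsto t) ε hε] with t' h1 h2 γ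
    by_cases e : γ ∈ H
    · exact (h2 γ e).le
    · linarith [abs_sub (g γ t') (g γ t), h1 γ e, hH.self_of_nhds γ e]

lemma near (hR : Continuous R) (t : X) : ∀ᶠ t' in 𝓝 t, R t' ≤ (⌈R t⌉₊ + 1 : ℕ) :=
  ((hR.tendsto t).eventually_lt_const (by push_cast; linarith [Nat.le_ceil (R t)])).mono
    fun _ => le_of_lt

lemma Dec.nuclear (d : Dec δ p R M f y) (h : IsFreeLCS δ) (hp : Continuous p) (hR : Continuous R)
    (hM : ∀ r, Tendsto (fun n => (2 / 3 : ℝ) ^ n * (M n r : ℝ) ^ 4) atTop (𝓝 0)) :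
    ∃ q : Seminorm ℝ V, Continuous q ∧ p ≤ q ∧
    ∃ (f : ℕ → V →ₗ[ℝ] ℝ) (a : ℕ → ℝ) (y : ℕ → UniformSpace.Completion (Aux p)),
      (∀ n, 0 ≤ a n) ∧ (∀ n x, |f n x| ≤ a n * q x) ∧ Summable (fun n => a n * ‖y n‖) ∧
        ∀ x : Aux p, HasSum (fun n => f n x • y n) (x : UniformSpace.Completion (Aux p)) := by
  let w : ℕ → ℝ := fun k => 1 / ((k : ℝ) + 1) ^ 2
  have hw : Summable w := by
    simpa [w] using (summable_nat_add_iff 1).2 (Real.summable_one_div_nat_pow.2 one_lt_two)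
  let v : ℕ × ℕ × ℕ → ℝ := fun γ => (3 / 4) ^ γ.1 * (w γ.2.1 * w γ.2.2)
  have hv : Summable v := (summable_geometric_of_lt_one (by norm_num) (by norm_num)).mul_of_nonneg
    (hw.mul_of_nonneg hw (fun _ => by positivity) fun _ => by positivity)
    (fun _ => by positivity) fun _ => by positivity
  let u : ℕ × ℕ × ℕ → ℝ := fun γ => (p (y γ) + 1 / 2 ^ γ.1) / v γ
  have hu : ∀ γ, 0 < u γ := fun γ => by positivity
  obtain ⟨s, φ, h1, h2, h3⟩ := h.lift' (fun γ t => u γ * f γ t)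
    (fun γ => (d.cont γ).const_mul _) fun t ε hε => by
      obtain ⟨N, hN⟩ := eventually_atTop.1 ((hM (⌈R t⌉₊ + 1)).eventually_lt_const
        (show 0 < ε / 7 by positivity))
      obtain ⟨L, -, hL⟩ := d.box N (⌈R t⌉₊ + 1)
      refine ⟨Finset.range (N + 1) ×ˢ Finset.range L ×ˢ Finset.range L,
        (near hR t).mono fun t' ht' γ hγ => ?_⟩
      by_cases hf : f γ t' = 0
      · simp [hf, hε.le]
      have a1 := hL t' γ ht' hγ hf
      have a2 := d.small γ t' hf (by omega)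
      have a3 := d.supp γ t' _ hf ht'
      have a4 : f γ t' ≤ 1 := by simpa using d.le_one γ.1 t' {γ.2}
      have a5 := hN γ.1 a1.le
      rw [abs_of_nonneg (mul_nonneg (hu γ).le (d.nonneg _ _))]
      refine (mul_le_of_le_one_right (hu γ).le a4).trans ?_
      have b1 : (γ.2.1 : ℝ) + 1 ≤ M γ.1 (⌈R t⌉₊ + 1) := by exact_mod_cast a3.1
      have b2 : (γ.2.2 : ℝ) + 1 ≤ M γ.1 (⌈R t⌉₊ + 1) := by exact_mod_cast a3.2
      calc u γ ≤ (6 / 2 ^ γ.1 + 1 / 2 ^ γ.1) / v γ := by simp only [u]; gcongr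
        _ = 7 * ((2 / 3) ^ γ.1 * (((γ.2.1 : ℝ) + 1) ^ 2 * ((γ.2.2 : ℝ) + 1) ^ 2)) := by
          simp only [v, w, div_pow]
          rw [show (4 : ℝ) ^ γ.1 = 2 ^ γ.1 * 2 ^ γ.1 by rw [← mul_pow]; norm_num]
          field_simp
          norm_num
        _ ≤ 7 * ((2 / 3) ^ γ.1 * ((M γ.1 (⌈R t⌉₊ + 1) : ℝ) ^ 2 * (M γ.1 (⌈R t⌉₊ + 1) : ℝ) ^ 2)) := by
          gcongr
        _ ≤ ε := by rw [← pow_add]; linarith
  let e := (Denumerable.eqv (ℕ × ℕ × ℕ)).symm
  refine ⟨p + s, hp.add h1, fun x => le_add_of_nonneg_right (apply_nonneg _ _),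
    fun n => (u (e n))⁻¹ • φ (e n), fun n => (u (e n))⁻¹,
    fun n => UniformSpace.Completion.coe' (α := Aux p) (y (e n)), fun n => (inv_pos.2 (hu _)).le,
    fun n x => ?_, ?_, fun x => ?_⟩
  · rw [LinearMap.smul_apply, smul_eq_mul, abs_mul, abs_of_pos (inv_pos.2 (hu _))]
    exact mul_le_mul_of_nonneg_left ((h2 _ _).trans (le_add_of_nonneg_left (apply_nonneg p x)))
      (inv_pos.2 (hu _)).le
  · refine .of_nonneg_of_le (fun n => mul_nonneg (inv_pos.2 (hu _)).le (norm_nonneg _))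
      (fun n => ?_) (e.summable_iff.2 hv)
    rw [UniformSpace.Completion.norm_coe, inv_mul_le_iff₀ (hu _)]
    show p (y (e n)) ≤ u (e n) * v (e n)
    rw [div_mul_cancel₀ _ (by positivity)]
    exact le_add_of_nonneg_right (by positivity)
  · have := (UniformSpace.Completion.toComplL (𝕜 := ℝ) (E := Aux p)).hasSum
      (d.hasSum' h (fun γ => (u γ)⁻¹ • φ γ) (fun γ t => by
        rw [LinearMap.smul_apply, h3, smul_eq_mul, inv_mul_cancel_left₀ (hu _).ne']) x)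
    exact (e.hasSum_iff.2 this).congr_fun fun n =>
      (UniformSpace.Completion.coe_smul (X := Aux p) (((u (e n))⁻¹ • φ (e n)) x) (y (e n))).symm

omit [TopologicalSpace X] [TopologicalSpace V] in
lemma signs (b : LinearMap.BilinForm ℝ V) (hb : ∀ x y, b x y = b y x) (F : Finset X) :
    ∃ ε : X → ℝ, (∀ t, ε t = 1 ∨ ε t = -1) ∧
      b (∑ t ∈ F, ε t • δ t) (∑ t ∈ F, ε t • δ t) ≤ ∑ t ∈ F, b (δ t) (δ t) := by
  classical
  induction F using Finset.induction_on with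
  | empty => exact ⟨1, by simp, by simp⟩
  | insert a F ha ih =>
    obtain ⟨ε, h1, h2⟩ := ih
    obtain ⟨c, c1, c2⟩ : ∃ c : ℝ, (c = 1 ∨ c = -1) ∧ c * b (∑ t ∈ F, ε t • δ t) (δ a) ≤ 0 := by
      rcases le_total (b (∑ t ∈ F, ε t • δ t) (δ a)) 0 with h | h
      exacts [⟨1, .inl rfl, by linarith⟩, ⟨-1, .inr rfl, by linarith⟩]
    refine ⟨Function.update ε a c, fun t => ?_, ?_⟩
    · by_cases e : t = a
      · simpa [e] using c1
      · simpa [e] using h1 t
    · have : ∑ t ∈ F, Function.update ε a c t • δ t = ∑ t ∈ F, ε t • δ t :=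
        Finset.sum_congr rfl fun t ht => by rw [Function.update_of_ne (ne_of_mem_of_not_mem ht ha)]
      have c3 : c * c = 1 := by rcases c1 with rfl | rfl <;> norm_num
      rw [Finset.sum_insert ha, Finset.sum_insert ha, this, Function.update_self]
      generalize (∑ t ∈ F, ε t • δ t) = m at h2 c2 ⊢
      simp only [map_add, map_smul, LinearMap.add_apply, LinearMap.smul_apply, smul_eq_mul, hb (δ a) m]
      rw [mul_add, ← mul_assoc, c3]
      linarith

theorem IsFreeLCS.nuclear (h : IsFreeLCS δ) (H : MultiHilbert V) : Nuclear V := by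
  classical
  intro p hp
  obtain ⟨ι, q, hq, H⟩ := H
  obtain ⟨s, hs, hs'⟩ := h.sep hp
  obtain ⟨S, C, -, hC⟩ := Seminorm.bound_of_continuous hq s hs
  choose b b1 b2 b3 using H
  let B : LinearMap.BilinForm ℝ V := (C : ℝ) ^ 2 • ∑ i ∈ S, b i
  have hB : ∀ x y, B x y = (C : ℝ) ^ 2 * ∑ i ∈ S, b i x y := fun x y => by
    simp [B, LinearMap.sum_apply]
  have h4 (x) : s x ^ 2 ≤ B x x := by
    have h4 := Finset.sum_nonneg fun i (_ : i ∈ S) => b2 i x
    refine (pow_le_pow_left₀ (apply_nonneg _ _) ((hC x).trans (mul_le_mul_of_nonneg_left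
      (Seminorm.finset_sup_apply_le (Real.sqrt_nonneg (∑ i ∈ S, b i x x)) fun i hi => ?_)
      C.2)) 2).trans_eq (by rw [mul_pow, Real.sq_sqrt h4, hB])
    exact (b3 i x).trans_le (Real.sqrt_le_sqrt (Finset.single_le_sum (fun i _ => b2 i x) hi))
  have h5 : Continuous fun t => B (δ t) (δ t) := by
    simp only [hB]
    exact (continuous_const.mul (continuous_finsetSum _ fun i _ =>
      ((hq.continuous_seminorm i).pow 2).congr fun x => by
        rw [Pi.pow_apply, b3, Real.sq_sqrt (b2 i x)])).comp h.2.2.2.2.1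
  obtain ⟨c, hc⟩ := enum (δ := δ) p (fun t => B (δ t) (δ t)) (fun n r => 4 * r * (n + 1) ^ 2)
    fun n r => by
      have key : ∀ F : Finset X, (∀ t ∈ F, B (δ t) (δ t) ≤ r) →
          (∀ a ∈ F, ∀ b ∈ F, a ≠ b → 1 ≤ 2 ^ n * p (δ a - δ b)) → F.card ≤ 4 * r * (n + 1) ^ 2 := by
        intro F h1 h2
        obtain ⟨ε, e1, e2⟩ := signs (δ := δ) B (fun x y => by simp only [hB, b1 _ x]) F
        obtain ⟨φ, f1, f2, f3⟩ := hs' n (F.filter (ε · = -1))
        obtain ⟨ψ, g1, g2, g3⟩ := hs' n (F.filter (ε · = 1))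
        have e3 : φ (∑ t ∈ F, ε t • δ t) - ψ (∑ t ∈ F, ε t • δ t) = F.card := by
          simp only [map_sum, map_smul, ← Finset.sum_sub_distrib, smul_eq_mul]
          rw [Finset.card_eq_sum_ones, Nat.cast_sum]
          refine Finset.sum_congr rfl fun t ht => ?_
          rcases e1 t with e | e
          · rw [g2 t (Finset.mem_filter.2 ⟨ht, e⟩), f3 t fun a ha => h2 t ht a
              (Finset.mem_filter.1 ha).1 (by rintro rfl; linarith [(Finset.mem_filter.1 ha).2]), e]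
            simp
          · rw [f2 t (Finset.mem_filter.2 ⟨ht, e⟩), g3 t fun a ha => h2 t ht a
              (Finset.mem_filter.1 ha).1 (by rintro rfl; linarith [(Finset.mem_filter.1 ha).2]), e]
            simp
        have e4 := (h4 _).trans (e2.trans (Finset.sum_le_card_nsmul _ _ _ h1))
        generalize (∑ t ∈ F, ε t • δ t) = m at e3 e4
        have e5 : (F.card : ℝ) ≤ 2 * (n + 1) * s m := by
          linarith [(abs_le.1 (f1 m)).2, (abs_le.1 (g1 m)).1]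
        have e6 := pow_le_pow_left₀ (by positivity) e5 2
        rw [nsmul_eq_mul] at e4
        rcases F.card.eq_zero_or_pos with e | e
        · omega
        have : (F.card : ℝ) * F.card ≤ F.card * (4 * r * (n + 1) ^ 2) := by
          nlinarith [mul_le_mul_of_nonneg_left e4 (show (0 : ℝ) ≤ (2 * (n + 1)) ^ 2 by positivity)]
        exact_mod_cast le_of_mul_le_mul_left this (by exact_mod_cast e)
      by_contra hn
      push Not at hn
      have : ∀ m, ∃ F : Finset X, (∀ t ∈ F, B (δ t) (δ t) ≤ r) ∧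
          (∀ a ∈ F, ∀ b ∈ F, a ≠ b → 1 ≤ 2 ^ n * p (δ a - δ b)) ∧ F.card = m := by
        intro m
        induction m with
        | zero => exact ⟨∅, by simp, by simp, rfl⟩
        | succ m ih =>
          obtain ⟨F, h1, h2, h3⟩ := ih
          obtain ⟨t, t1, t2⟩ := hn F (key F h1 h2)
          refine ⟨insert t F, by simpa [t1] using h1, fun a ha b hb e => ?_, ?_⟩
          · rcases Finset.mem_insert.1 ha with rfl | a' <;> rcases Finset.mem_insert.1 hb with rfl | b'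
            exacts [absurd rfl e, t2 b b', map_sub_rev p _ _ ▸ t2 a a', h2 a a' b b' e]
          · rw [Finset.card_insert_of_notMem fun ht => by simpa [zero_lt_one.not_ge] using t2 t ht, h3]
      obtain ⟨F, h1, h2, h3⟩ := this (4 * r * (n + 1) ^ 2 + 1)
      have := key F h1 h2
      omega
  obtain ⟨f, y, d⟩ := h.dec hp _ _ (fun n r => by gcongr; omega) c hc
  refine d.nuclear h hp h5 fun r => ?_
  have := ((tendsto_pow_const_mul_const_pow_of_abs_lt_one 16 (r := 2 / 3) (by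
    rw [abs_of_pos] <;> norm_num)).comp (tendsto_add_atTop_nat 1)).const_mul ((4 * r + 1 : ℝ) ^ 8 * 2)
  rw [mul_zero] at this
  refine squeeze_zero (fun n => by positivity) (fun n => ?_) this
  have e1 : (1 : ℝ) ≤ (n + 1) ^ 2 := one_le_pow₀ (by simp)
  rw [max_eq_right (by nlinarith [Nat.one_le_two_pow (n := 0), Nat.pos_of_ne_zero (pow_ne_zero 2 (Nat.succ_ne_zero n))])]
  push_cast
  calc (2 / 3 : ℝ) ^ n * ((4 * r * (n + 1) ^ 2 + 1) ^ 2) ^ 4
      ≤ (2 / 3 : ℝ) ^ n * (((4 * r + 1) * (n + 1) ^ 2) ^ 2) ^ 4 := by gcongr; linarith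
    _ ≤ _ := by
      simp only [Function.comp, pow_succ (2 / 3 : ℝ)]
      push_cast
      have : 0 ≤ (2 / 3 : ℝ) ^ n * (((4 * r + 1) * (n + 1) ^ 2) ^ 2) ^ 4 := by positivity
      nlinarith

end Pool.Agent.H.MP_7eb7a8_an
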