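import Pool.Agent.H.MP_7eb7a8_an.B

open Set Topology Filter Pointwise

namespace Pool.Agent.H.MP_7eb7a8_an

lemma ulim {E : Type} [NormedAddCommGroup E] [NormedSpace ℝ E] (g : ℕ → StrongDual ℝ E) (C : ℝ)
    (h : ∀ n, ‖g n‖ ≤ C) :
    ∃ φ : StrongDual ℝ E, ∀ e, Tendsto (fun n => g n e) (hyperfilter ℕ) (𝓝 (φ e)) := by
  have : ∀ e, ∃ l, Tendsto (fun n => g n e) (hyperfilter ℕ) (𝓝 l) := fun e =>
    ((isCompact_closedBall (0 : ℝ) (C * ‖e‖)).ultrafilter_le_nhds ((hyperfilter ℕ).map (g · e))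
      (le_principal_iff.2 (mem_map.2 (univ_mem' fun n => mem_closedBall_zero_iff.2
        ((g n).le_of_opNorm_le (h n) e))))).imp fun _ h => h.2
  choose l hl using this
  exact ⟨.ofTendstoOfBoundedRange l g (tendsto_pi_nhds.2 hl)
    (isBounded_iff_forall_norm_le.2 ⟨C, by rintro _ ⟨n, rfl⟩; exact h n⟩), hl⟩

lemma double {ι : Type} {B : ι → Type} [∀ i, NormedAddCommGroup (B i)] [∀ i, NormedSpace ℝ (B i)]
    (hB : ∀ i, Function.Surjective (NormedSpace.inclusionInDoubleDual ℝ (B i))) (S : Finset ι)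
    (x : ℕ → ∀ i, B i) (g : ℕ → ∀ i, StrongDual ℝ (B i)) (C : ℝ) (hx : ∀ i ∈ S, ∀ k, ‖x k i‖ ≤ C)
    (hg : ∀ i ∈ S, ∀ k, ‖g k i‖ ≤ C)
    (h : ∀ N k, ∑ i ∈ S, g N i (x k i) = if k < N then 0 else 1) : False := by
  choose! ψ hψ using fun i (hi : i ∈ S) => ulim (g · i) C (hg i hi)
  choose! z hz using fun i (hi : i ∈ S) => ulim (fun k => NormedSpace.inclusionInDoubleDual ℝ _ (x k i))
    C fun k => ((NormedSpace.inclusionInDoubleDualLi ℝ).norm_map _).trans_le (hx i hi k)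
  choose w hw using fun i => hB i (z i)
  have hl : (hyperfilter ℕ : Filter ℕ) ≤ atTop := hyperfilter_le_cofinite.trans_eq Nat.cofinite_eq_atTop
  have h1 : ∀ φ : ∀ i, StrongDual ℝ (B i), Tendsto (fun k => ∑ i ∈ S, φ i (x k i)) (hyperfilter ℕ)
      (𝓝 (∑ i ∈ S, φ i (w i))) := fun φ => tendsto_finsetSum _ fun i hi => by
    have := hz i hi (φ i)
    rwa [← hw] at this
  have h2 : ∀ v : ∀ i, B i, Tendsto (fun k => ∑ i ∈ S, g k i (v i)) (hyperfilter ℕ)
      (𝓝 (∑ i ∈ S, ψ i (v i))) := fun v => tendsto_finsetSum _ fun i hi => hψ i hi _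
  have h3 : ∀ N, ∑ i ∈ S, g N i (w i) = 1 := fun N => tendsto_nhds_unique (h1 (g N))
    (tendsto_const_nhds.congr' (hl ((eventually_ge_atTop N).mono fun k hk => by
      simp only [h, if_neg (not_lt.2 hk)])))
  have h4 : ∀ k, ∑ i ∈ S, ψ i (x k i) = 0 := fun k => tendsto_nhds_unique (h2 (x k))
    (tendsto_const_nhds.congr' (hl ((eventually_gt_atTop k).mono fun N hk => by
      simp only [h, if_pos hk])))
  have a1 := h1 ψ
  have a2 := h2 w
  simp only [h3, h4] at a1 a2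
  exact zero_ne_one ((tendsto_nhds_unique tendsto_const_nhds a1).trans
    (tendsto_nhds_unique a2 tendsto_const_nhds))

variable {X V : Type} [TopologicalSpace X] [AddCommGroup V] [Module ℝ V] [TopologicalSpace V]
  {δ : X → V} {p : Seminorm ℝ V} {R : X → ℝ} {M : ℕ → ℕ → ℕ} {f : ℕ × ℕ × ℕ → X → ℝ}
  {y : ℕ × ℕ × ℕ → V}

lemma IsFreeLCS.nets (h : IsFreeLCS δ) (H : MultiReflexive V) (hp : Continuous p) :
    ∃ R : X → ℝ, Continuous R ∧ ∀ n r : ℕ, ∃ F : Finset X,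
      ∀ t, R t ≤ r → ∃ a ∈ F, 2 ^ n * p (δ t - δ a) < 1 := by
  classical
  obtain ⟨ι, B, _, _, hB, J, hJ⟩ := H
  obtain ⟨s, hs, hs'⟩ := h.sep hp
  have hq := withSeminorms_pi (E := B) fun i => norm_withSeminorms ℝ (B i)
  obtain ⟨S, C, -, hC⟩ := Seminorm.bound_of_continuous (hJ.isInducing.withSeminorms hq) s hs
  let S' := S.image Sigma.fst
  let Q : Seminorm ℝ (∀ i, B i) := ∑ i ∈ S', (normSeminorm ℝ (B i)).comp (LinearMap.proj i)
  have hQ : ∀ v, Q v = ∑ i ∈ S', ‖v i‖ := fun v => by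
    simp only [Q]
    induction S' using Finset.induction_on with
    | empty => simp
    | insert a T ha ih => rw [Finset.sum_insert ha, Finset.sum_insert ha, add_apply, ih]; rfl
  have h1 : ∀ x, s x ≤ C * Q (J x) := fun x => (hC x).trans (mul_le_mul_of_nonneg_left
    (Seminorm.finset_sup_apply_le (apply_nonneg _ _) fun i hi => by
      rw [hQ]
      exact Finset.single_le_sum (f := fun i => ‖J x i‖) (fun _ _ => norm_nonneg _)
        (Finset.mem_image_of_mem _ hi)) C.2)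
  refine ⟨fun t => Q (J (δ t)), ?_, fun n r => ?_⟩
  · simp only [hQ]
    exact continuous_finsetSum _ fun i _ =>
      ((continuous_apply i).comp (hJ.continuous.comp h.2.2.2.2.1)).norm
  by_contra hn
  push Not at hn
  obtain ⟨t, t1, t2⟩ := exists_seq_of_forall_finset_exists (fun t => Q (J (δ t)) ≤ r)
    (fun a t => 1 ≤ 2 ^ n * p (δ t - δ a)) fun F _ => hn F
  have : ∀ N, ∃ g : (∀ i, B i) →ₗ[ℝ] ℝ, (∀ v, |g v| ≤ (n + 1) * C * Q v) ∧
      ∀ k, g (J (δ (t k))) = if k < N then 0 else 1 := fun N => by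
    obtain ⟨φ, f1, f2, f3⟩ := hs' n ((Finset.range N).image t)
    let e := LinearEquiv.ofInjective J hJ.injective
    obtain ⟨g, g1, g2⟩ := Module.Dual.exists_extension_of_le_seminorm_real (LinearMap.range J)
      (φ.comp e.symm.toLinearMap) (p := ((n + 1) * C : NNReal) • Q) fun v => by
        obtain ⟨x, rfl⟩ := e.surjective v
        show φ (e.symm (e x)) ≤ ((n + 1) * C : NNReal) * Q (J x)
        rw [e.symm_apply_apply]
        push_cast
        rw [mul_assoc]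
        exact (le_abs_self _).trans ((f1 x).trans (mul_le_mul_of_nonneg_left (h1 x) (by positivity)))
    refine ⟨g, fun v => by simpa [NNReal.smul_def] using g2 v, fun k => (g1 (e _)).trans ?_⟩
    show φ (e.symm (e _)) = _
    rw [e.symm_apply_apply]
    split_ifs with hk
    · exact f2 _ (Finset.mem_image_of_mem _ (Finset.mem_range.2 hk))
    · refine f3 _ fun a ha => ?_
      obtain ⟨j, hj, rfl⟩ := Finset.mem_image.1 ha
      exact t2 _ _ ((Finset.mem_range.1 hj).trans_le (not_lt.1 hk))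
  choose g g1 g2 using this
  have g3 : ∀ N i v, ‖((g N).comp (LinearMap.single ℝ B i)) v‖ ≤ (n + 1) * C * ‖v‖ := fun N i v => by
    refine (g1 N _).trans (mul_le_mul_of_nonneg_left ?_ (by positivity))
    rw [hQ]
    refine (Finset.sum_le_sum_of_subset_of_nonneg (S'.subset_insert i) fun _ _ _ =>
      norm_nonneg _).trans_eq ?_
    rw [Finset.sum_eq_single_of_mem i (S'.mem_insert_self i) fun j _ hj => by
      simp [Pi.single_eq_of_ne hj]]
    simp
  refine double (fun i => (hB i).2) S' (fun k => J (δ (t k)))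
    (fun N i => LinearMap.mkContinuous _ _ (g3 N i)) (max r ((n + 1) * C))
    (fun i hi k => le_max_of_le_left (le_trans ?_ (t1 k)))
    (fun i _ N => le_max_of_le_right (LinearMap.mkContinuous_norm_le _ (by positivity) _)) fun N k => ?_
  · rw [hQ]
    exact Finset.single_le_sum (f := fun i => ‖J (δ (t k)) i‖) (fun _ _ => norm_nonneg _) hi
  · rw [← g2]
    generalize J (δ (t k)) = v
    have := g1 N (∑ i ∈ S', Pi.single i (v i) - v)
    rw [hQ, Finset.sum_eq_zero (f := fun _ => ‖_‖) fun i hi => by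
      simp [Finset.sum_apply, Finset.sum_pi_single, hi], mul_zero, abs_nonpos_iff, map_sub, sub_eq_zero, map_sum] at this
    exact this

lemma IsFreeLCS.lift1 (h : IsFreeLCS δ) {Γ : Type} (g : Γ → X → ℝ) (hc : ∀ γ, Continuous (g γ))
    (he : ∀ t, ∀ ε > 0, ∃ H : Finset Γ, ∀ᶠ t' in 𝓝 t, ∀ G, Disjoint G H → ∑ γ ∈ G, |g γ t'| ≤ ε) :
    ∃ (s : Seminorm ℝ V) (φ : Γ → V →ₗ[ℝ] ℝ), Continuous s ∧ (∀ G x, ∑ γ ∈ G, |φ γ x| ≤ s x) ∧
      ∀ γ t, φ γ (δ t) = g γ t := by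
  classical
  have key : ∀ (σ : {σ : Γ → ℝ // ∀ γ, |σ γ| ≤ 1}) (G H : Finset Γ) (a : Γ → ℝ),
      |∑ γ ∈ G, σ.1 γ * a γ| ≤ ∑ γ ∈ G \ H, |a γ| + ∑ γ ∈ H, |a γ| := fun σ G H a => by
    refine (Finset.abs_sum_le_sum_abs _ _).trans ((Finset.sum_le_sum fun γ _ => (abs_mul _ _).trans_le
      (mul_le_of_le_one_left (abs_nonneg _) (σ.2 γ))).trans ?_)
    rw [← Finset.sum_union Finset.sdiff_disjoint]
    exact Finset.sum_le_sum_of_subset_of_nonneg (by simp) fun _ _ _ => abs_nonneg _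
  obtain ⟨s, Φ, h1, h2, h3⟩ := h.lift (Γ := Finset Γ × {σ : Γ → ℝ // ∀ γ, |σ γ| ≤ 1})
    (fun a t => ∑ γ ∈ a.1, a.2.1 γ * g γ t) (fun t => by
      obtain ⟨H, hH⟩ := he t 1 one_pos
      exact ⟨_, fun a => (key a.2 a.1 H _).trans
        (add_le_add_left (hH.self_of_nhds _ Finset.sdiff_disjoint) _)⟩) fun t ε hε => by
      obtain ⟨H, hH⟩ := he t (ε / 3) (by positivity)
      have : Continuous fun t' => ∑ γ ∈ H, |g γ t' - g γ t| := by fun_prop
      filter_upwards [hH, (this.tendsto t).eventually_lt_const (u := ε / 3) (by simpa using hε)]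
        with t' h1 h2 a
      rw [← Finset.sum_sub_distrib]
      simp only [← mul_sub]
      refine (key a.2 a.1 H _).trans ?_
      have := Finset.sum_le_sum fun γ (_ : γ ∈ a.1 \ H) => abs_sub (g γ t') (g γ t)
      rw [Finset.sum_add_distrib] at this
      linarith [h1 _ (Finset.sdiff_disjoint (s := H) (t := a.1)),
        hH.self_of_nhds _ (Finset.sdiff_disjoint (s := H) (t := a.1))]
  let φ := fun γ => Φ ({γ}, ⟨1, by simp⟩)
  have h4 : ∀ γ t, φ γ (δ t) = g γ t := fun γ t => by simp [φ, h3]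
  refine ⟨s, φ, h1, fun G x => ?_, h4⟩
  let σ : {σ : Γ → ℝ // ∀ γ, |σ γ| ≤ 1} := ⟨fun γ => if 0 ≤ φ γ x then 1 else -1, fun γ => by
    beta_reduce; split_ifs <;> simp⟩
  have : Φ (G, σ) = ∑ γ ∈ G, σ.1 γ • φ γ := LinearMap.ext_on_range
    (Submodule.eq_top_iff'.2 h.span) fun t => by simp [h3, h4]
  refine le_trans (le_of_eq ?_) ((le_abs_self _).trans (h2 (G, σ) x))
  rw [this, LinearMap.sum_apply]
  refine Finset.sum_congr rfl fun γ _ => ?_
  simp only [σ, LinearMap.smul_apply, smul_eq_mul]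
  split_ifs with e
  · rw [abs_of_nonneg e, one_mul]
  · rw [abs_of_neg (not_le.1 e), neg_one_mul]

lemma Dec.schwartz (d : Dec δ p R M f y) (h : IsFreeLCS δ) (hR : Continuous R)
    (hM : ∀ n r, r < M n r) : ∃ s : Seminorm ℝ V, Continuous s ∧ ∀ c > 0,
      ∃ F : Set V, F.Finite ∧ ∀ x, s x < 1 → ∃ a ∈ F, p (x - a) < c := by
  classical
  have ex : ∀ γ : ℕ × ℕ × ℕ, ∃ r, γ.2.1 < M γ.1 r ∧ γ.2.2 < M γ.1 r := fun γ =>
    ⟨max γ.2.1 γ.2.2, (le_max_left _ _).trans_lt (hM _ _), (le_max_right _ _).trans_lt (hM _ _)⟩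
  let a : ℕ × ℕ × ℕ → ℕ := fun γ => γ.1 + Nat.find (ex γ)
  let u : ℕ × ℕ × ℕ → ℝ := fun γ => (p (y γ) + 1 / 2 ^ γ.1) * (a γ + 1)
  have hu : ∀ γ, 0 < u γ := fun γ => by positivity
  obtain ⟨s, φ, h1, h2, h3⟩ := h.lift1 (fun γ t => u γ * f γ t)
    (fun γ => (d.cont γ).const_mul _) fun t ε hε => by
      obtain ⟨N, hN⟩ := vanish (ω := fun n => 7 / 2 ^ n * (n + (⌈R t⌉₊ + 1 : ℕ) + 1)) (by
        refine (((summable_pow_mul_geometric_of_norm_lt_one 1 (by norm_num : ‖(1 / 2 : ℝ)‖ < 1)).add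
          (summable_geometric_two.mul_left (((⌈R t⌉₊ + 1 : ℕ) : ℝ) + 1))).mul_left 7).congr fun n => ?_
        rw [one_div_pow]
        ring) hε
      obtain ⟨L, -, hL⟩ := d.box N (⌈R t⌉₊ + 1)
      refine ⟨Finset.range (N + 1) ×ˢ Finset.range L ×ˢ Finset.range L,
        (near hR t).mono fun t' ht' G hG => ?_⟩
      simp only [abs_of_nonneg (mul_nonneg (hu _).le (d.nonneg _ _))]
      refine (d.tail t' u _ (fun _ => by positivity) G _ fun γ hγ hf => ?_).trans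
        (hN (G.image Prod.fst)).le
      have a1 := hL t' γ ht' (Finset.disjoint_left.1 hG hγ) hf
      have a2 := d.small γ t' hf (by omega)
      have a3 : (a γ : ℝ) ≤ γ.1 + (⌈R t⌉₊ + 1 : ℕ) := by
        exact_mod_cast Nat.add_le_add_left (Nat.find_min' (ex γ) (d.supp γ t' _ hf ht')) _
      refine ⟨Finset.mem_filter.2 ⟨Finset.mem_image_of_mem _ hγ, a1⟩, ?_⟩
      calc u γ ≤ (6 / 2 ^ γ.1 + 1 / 2 ^ γ.1) * (γ.1 + (⌈R t⌉₊ + 1 : ℕ) + 1) := by
            simp only [u]; gcongr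
        _ = _ := by ring
  refine ⟨s, h1, fun c hc => ?_⟩
  obtain ⟨m, hm⟩ := exists_nat_one_div_lt (show 0 < c / 3 by positivity)
  have hH : {γ | a γ ≤ m}.Finite := by
    refine ((Finset.range (m + 1) ×ˢ Finset.range (m + 1)).biUnion fun b =>
      {b.1} ×ˢ Finset.range (M b.1 b.2) ×ˢ Finset.range (M b.1 b.2)).finite_toSet.subset
      fun γ hγ => ?_
    have : γ.1 + Nat.find (ex γ) ≤ m := hγ
    simp only [Finset.coe_biUnion, mem_iUnion, Finset.mem_coe, Finset.mem_product, Finset.mem_range,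
      Finset.mem_singleton]
    exact ⟨(γ.1, Nat.find (ex γ)), ⟨by omega, by omega⟩, rfl, Nat.find_spec (ex γ)⟩
  let z : ℕ × ℕ × ℕ → Aux p := fun γ => (u γ)⁻¹ • y γ
  have hK := ((isCompact_closedBall (0 : hH.toFinset → ℝ) 1).image
    (f := fun b => ∑ γ : hH.toFinset, b γ • z γ) (by fun_prop)).totallyBounded
  obtain ⟨F, f1, f2⟩ := Metric.totallyBounded_iff.1 hK (c / 3) (by positivity)
  refine ⟨F, f1, fun x hx => ?_⟩
  obtain ⟨b, b1, b2⟩ := mem_iUnion₂.1 (f2 ⟨fun γ => φ γ x, mem_closedBall_zero_iff.2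
    ((pi_norm_le_iff_of_nonneg zero_le_one).2 fun γ => by
      simpa using (h2 {γ.1} x).trans hx.le), rfl⟩)
  have := d.hasSum' h (fun γ => (u γ)⁻¹ • φ γ) (fun γ t => by
    rw [LinearMap.smul_apply, h3, smul_eq_mul, inv_mul_cancel_left₀ (hu _).ne']) x
  obtain ⟨G, g1, g2⟩ := ((Metric.tendsto_nhds.1 this (c / 3) (by positivity)).and
    (eventually_ge_atTop hH.toFinset)).exists
  refine ⟨b, b1, ?_⟩
  have b2 : dist (∑ γ ∈ hH.toFinset, φ γ x • z γ) b < c / 3 := by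
    rw [← Finset.sum_coe_sort]; exact b2
  have e : ∀ γ, ((u γ)⁻¹ • φ γ) x • (show Aux p from y γ) = φ γ x • z γ := fun γ => by
    rw [LinearMap.smul_apply, smul_eq_mul, mul_comm, mul_smul]; rfl
  have g1 : dist (∑ γ ∈ G, φ γ x • z γ) (show Aux p from x) < c / 3 :=
    (congrArg (dist · _) (Finset.sum_congr rfl fun γ _ => e γ)).symm.trans_lt g1
  have g3 : ‖∑ γ ∈ G \ hH.toFinset, φ γ x • z γ‖ ≤ c / 3 := by
    refine (norm_sum_le _ _).trans ((Finset.sum_le_sum (g := fun γ => |φ γ x| * (c / 3))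
      fun γ hγ => ?_).trans ?_)
    · rw [norm_smul]
      refine mul_le_mul_of_nonneg_left (le_trans ?_ hm.le) (norm_nonneg _)
      have : (m : ℝ) ≤ a γ := by
        exact_mod_cast (not_le.1 (mt hH.mem_toFinset.2 (Finset.mem_sdiff.1 hγ).2)).le
      show p ((u γ)⁻¹ • y γ) ≤ _
      rw [map_smul_eq_mul, Real.norm_of_nonneg (inv_pos.2 (hu _)).le, inv_mul_le_iff₀ (hu _),
        mul_one_div, le_div_iff₀ (by positivity)]
      simp only [u]
      gcongr
      exact le_add_of_nonneg_right (by positivity)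
    · rw [← Finset.sum_mul]
      exact mul_le_of_le_one_left (by positivity) ((h2 _ _).trans hx.le)
  rw [← Finset.sum_sdiff g2] at g1
  have := dist_triangle4 (show Aux p from x) (∑ γ ∈ G \ hH.toFinset, φ γ x • z γ +
    ∑ γ ∈ hH.toFinset, φ γ x • z γ) (∑ γ ∈ hH.toFinset, φ γ x • z γ) b
  rw [dist_add_self_left, dist_comm _ (_ + _), dist_eq_norm] at this
  exact lt_of_le_of_lt this (by linarith)

theorem IsFreeLCS.schwartz (h : IsFreeLCS δ) (H : MultiReflexive V) : Schwartz V := by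
  intro U hU
  obtain ⟨_, _, _, -⟩ := id h
  obtain ⟨⟨S, ε⟩, h1, h2⟩ := (with_gaugeSeminormFamily (𝕜 := ℝ)).hasBasis_zero_ball.mem_iff.1 hU
  have hp : Continuous (S.sup (gaugeSeminormFamily ℝ V) : Seminorm ℝ V) :=
    Seminorm.continuous_finsetSup fun i _ => with_gaugeSeminormFamily.continuous_seminorm i
  generalize S.sup (gaugeSeminormFamily ℝ V) = p at h2 hp
  obtain ⟨R, hR, hn⟩ := h.nets H hp
  choose F hF using hn
  obtain ⟨c, hc⟩ := enum (δ := δ) p R (fun n r => ∑ m ∈ Finset.range (n + 1), (F m r).card)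
    fun n r => ⟨F n r, Finset.single_le_sum (f := fun m => (F m r).card) (fun _ _ => Nat.zero_le _)
      (Finset.self_mem_range_succ n), hF n r⟩
  obtain ⟨f, y, d⟩ := h.dec hp _ _ (fun n r => by gcongr; omega) c hc
  obtain ⟨s, hs, hs'⟩ := d.schwartz h hR fun n r =>
    (Nat.lt_succ_of_le (le_max_left _ _)).trans_le (Nat.le_self_pow two_ne_zero _)
  refine ⟨{x | s x < 1}, (hs.tendsto' 0 0 (map_zero s)).eventually_lt_const one_pos, fun c hc => ?_⟩
  obtain ⟨G, g1, g2⟩ := hs' (c * ε) (mul_pos hc h1)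
  refine ⟨G, g1, fun x hx => ?_⟩
  obtain ⟨a, a1, a2⟩ := g2 x hx
  refine mem_biUnion a1 ⟨x - a, ⟨c⁻¹ • (x - a), h2 (p.mem_ball_zero.2 ?_), smul_inv_smul₀ hc.ne' _⟩,
    add_sub_cancel _ _⟩
  rwa [map_smul_eq_mul, Real.norm_of_nonneg (inv_pos.2 hc).le, inv_mul_lt_iff₀ hc]

end Pool.Agent.H.MP_7eb7a8_an
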