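import Mathlib

open Set Topology Filter UniformSpace Pointwise

namespace Pool.Agent.H.MP_7eb7a8_an

/-- `δ : X → V` is the free locally convex space over `X` (universal property). -/
def IsFreeLCS {X V : Type} [TopologicalSpace X] [AddCommGroup V] [Module ℝ V]
    [TopologicalSpace V] (δ : X → V) : Prop :=
  IsTopologicalAddGroup V ∧ ContinuousSMul ℝ V ∧ LocallyConvexSpace ℝ V ∧ T2Space V ∧
    Continuous δ ∧ ∀ (E : Type) [AddCommGroup E] [Module ℝ E] [TopologicalSpace E]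
      [IsTopologicalAddGroup E] [ContinuousSMul ℝ E] [LocallyConvexSpace ℝ E] [T2Space E]
      (f : X → E), Continuous f → ∃! g : V →L[ℝ] E, ∀ x, g (δ x) = f x

/-- `V` seminormed by a given seminorm. -/
def Aux {V : Type} [AddCommGroup V] [Module ℝ V] (_ : Seminorm ℝ V) : Type := V

section
variable {V : Type} [AddCommGroup V] [Module ℝ V] (r : Seminorm ℝ V)
noncomputable instance : SeminormedAddCommGroup (Aux r) :=
  r.toAddGroupSeminorm.toSeminormedAddCommGroup
instance : Module ℝ (Aux r) := inferInstanceAs (Module ℝ V)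
noncomputable instance : NormedSpace ℝ (Aux r) := ⟨fun a x => (map_smul_eq_mul r a x).le⟩
end

/-- Nuclear locally convex space. -/
def Nuclear (V : Type) [AddCommGroup V] [Module ℝ V] [TopologicalSpace V] : Prop :=
  ∀ r : Seminorm ℝ V, Continuous r → ∃ q : Seminorm ℝ V, Continuous q ∧ r ≤ q ∧
    ∃ (f : ℕ → V →ₗ[ℝ] ℝ) (a : ℕ → ℝ) (y : ℕ → Completion (Aux r)),
      (∀ n, 0 ≤ a n) ∧ (∀ n x, |f n x| ≤ a n * q x) ∧ Summable (fun n => a n * ‖y n‖) ∧
        ∀ x : Aux r, HasSum (fun n => f n x • y n) (x : Completion (Aux r))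

/-- The topology is generated by Hilbertian seminorms. -/
def MultiHilbert (V : Type) [AddCommGroup V] [Module ℝ V] [TopologicalSpace V] : Prop :=
  ∃ (ι : Type) (q : SeminormFamily ℝ V ι), WithSeminorms q ∧
    ∀ i, ∃ b : LinearMap.BilinForm ℝ V, (∀ x y, b x y = b y x) ∧ (∀ x, 0 ≤ b x x) ∧
      ∀ x, q i x = √(b x x)

/-- `V` embeds linearly and topologically in a product of reflexive Banach spaces. -/
def MultiReflexive (V : Type) [AddCommGroup V] [Module ℝ V] [TopologicalSpace V] : Prop :=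
  ∃ (ι : Type) (B : ι → Type) (_ : ∀ i, NormedAddCommGroup (B i)) (_ : ∀ i, NormedSpace ℝ (B i)),
    (∀ i, CompleteSpace (B i) ∧
      Function.Surjective (NormedSpace.inclusionInDoubleDual ℝ (B i))) ∧
    ∃ J : V →ₗ[ℝ] (∀ i, B i), IsEmbedding J

/-- Schwartz space. -/
def Schwartz (V : Type) [AddCommGroup V] [Module ℝ V] [TopologicalSpace V] : Prop :=
  ∀ U ∈ 𝓝 (0 : V), ∃ W ∈ 𝓝 (0 : V), ∀ c : ℝ, 0 < c →
    ∃ F : Set V, F.Finite ∧ W ⊆ ⋃ a ∈ F, a +ᵥ (c • U)

end Pool.Agent.H.MP_7eb7a8_an
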